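import Pool.Agent.Helper21.DN.Stmts

set_option autoImplicit false

/-! Module COND: the conductor in terms of the ramification function. -/

namespace Pool.Agent.Helper21.DN

universe u

open MeasureTheory

theorem cond_anti (a : ℕ) : Antitone (fun x : ℝ => if x ≤ (a : ℝ) then (1 : ℝ) else 0) := by
  intro x y hxy
  by_cases h : y ≤ (a : ℝ)
  · simp [h, hxy.trans h]
  · simp only [h, if_false]
    split_ifs <;> norm_num

theorem cond_step (a : ℕ) (u : ℝ) (hu : 0 ≤ u) :
    ∫ x in (0 : ℝ)..u, (if x ≤ (a : ℝ) then (1 : ℝ) else 0) = min (a : ℝ) u := by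
  have h1 : (fun x : ℝ => if x ≤ (a : ℝ) then (1 : ℝ) else 0) =
      (Set.Iic (a : ℝ)).indicator (fun _ => (1 : ℝ)) := by
    funext x
    simp [Set.indicator_apply]
  have h2 : Set.Ioc (0 : ℝ) u ∩ Set.Iic (a : ℝ) = Set.Ioc 0 (min (a : ℝ) u) := by
    ext x
    simp only [Set.mem_inter_iff, Set.mem_Ioc, Set.mem_Iic, le_min_iff]
    tauto
  have h3 : 0 ≤ min (a : ℝ) u := le_min (Nat.cast_nonneg a) hu
  rw [h1, intervalIntegral.integral_of_le hu, setIntegral_indicator measurableSet_Iic, h2]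
  simp [h3]

open scoped Classical in
theorem cond_card {G : Type u} [Group G] [Fintype G] (s : G → ℕ) (i : ℕ) (S : Set G)
    (hS : ∀ g, g ∈ S ↔ (g = 1 ∨ i ≤ s g)) :
    (Nat.card S : ℝ) =
      1 + ∑ g ∈ Finset.univ.filter (fun g => g ≠ 1), (if i ≤ s g then (1 : ℝ) else 0) := by
  have h1 : S = ((insert 1 ((Finset.univ.filter (fun g : G => g ≠ 1)).filter
      (fun g => i ≤ s g)) : Finset G) : Set G) := by
    ext g
    rw [hS]
    simp only [Finset.coe_insert, Finset.coe_filter, Finset.mem_filter, Finset.mem_univ, true_and,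
      Set.mem_insert_iff, Set.mem_ofPred_eq]
    tauto
  have h2 : (1 : G) ∉ (Finset.univ.filter (fun g : G => g ≠ 1)).filter (fun g => i ≤ s g) := by
    simp
  rw [h1, Nat.card_coe_set_eq, Set.ncard_coe_finset, Finset.card_insert_of_notMem h2,
    Finset.card_filter]
  push_cast
  ring

open scoped Classical in
theorem cond_herb {G : Type u} [Group G] [Fintype G] (s : G → ℕ) (R : ℕ → Set G)
    (hR : ∀ i g, g ∈ R i ↔ (g = 1 ∨ i ≤ s g)) (u : ℝ) (hu : 0 ≤ u) :
    (∫ x in (0 : ℝ)..u, (Nat.card (R ⌈x⌉₊) : ℝ) / (Nat.card (R 0) : ℝ)) = phi s u := by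
  have h0 : (Nat.card (R 0) : ℝ) = (Fintype.card G : ℝ) := by
    have : R 0 = Set.univ := by
      ext g
      simp [hR]
    rw [this, Nat.card_coe_set_eq, Set.ncard_univ, Nat.card_eq_fintype_card]
  have h1 : ∀ x : ℝ, (Nat.card (R ⌈x⌉₊) : ℝ) / (Nat.card (R 0) : ℝ) =
      (1 + ∑ g ∈ Finset.univ.filter (fun g => g ≠ 1), (if x ≤ (s g : ℝ) then (1 : ℝ) else 0)) /
        (Fintype.card G : ℝ) := by
    intro x
    rw [h0, cond_card s ⌈x⌉₊ (R ⌈x⌉₊) (hR _)]
    simp only [Nat.ceil_le]
  have h2 : ∀ g ∈ Finset.univ.filter (fun g : G => g ≠ 1),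
      IntervalIntegrable (fun x : ℝ => if x ≤ (s g : ℝ) then (1 : ℝ) else 0) volume 0 u :=
    fun g _ => (cond_anti (s g)).intervalIntegrable
  have h3 := IntervalIntegrable.sum _ h2
  have h4 : (∑ g ∈ Finset.univ.filter (fun g : G => g ≠ 1),
      fun x : ℝ => if x ≤ (s g : ℝ) then (1 : ℝ) else 0) =
      fun x : ℝ => ∑ g ∈ Finset.univ.filter (fun g : G => g ≠ 1),
        (if x ≤ (s g : ℝ) then (1 : ℝ) else 0) := by
    funext x
    rw [Finset.sum_apply]
  rw [h4] at h3
  simp only [h1]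
  rw [intervalIntegral.integral_div, intervalIntegral.integral_add intervalIntegrable_const h3,
    intervalIntegral.integral_finsetSum h2, phi]
  simp only [intervalIntegral.integral_const, sub_zero, smul_eq_mul, mul_one]
  congr 2
  exact Finset.sum_congr rfl fun g _ => cond_step (s g) u hu

open scoped Classical in
theorem cond_phi_lip {G : Type u} [Group G] [Fintype G] (s : G → ℕ) {a u : ℝ} (h : a ≤ u) :
    phi s u ≤ phi s a + (u - a) := by
  have hc : (0 : ℝ) < (Fintype.card G : ℝ) := by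
    exact_mod_cast Fintype.card_pos
  have h1 : ∑ g ∈ Finset.univ.filter (fun g : G => g ≠ 1), min (s g : ℝ) u ≤
      ∑ g ∈ Finset.univ.filter (fun g : G => g ≠ 1), (min (s g : ℝ) a + (u - a)) := by
    refine Finset.sum_le_sum fun g _ => ?_
    rcases le_total (s g : ℝ) a with h2 | h2
    · rw [min_eq_left h2, min_eq_left (h2.trans h)]
      linarith
    · rw [min_eq_right h2]
      have := min_le_right (s g : ℝ) u
      linarith
  have h3 : (((Finset.univ.filter (fun g : G => g ≠ 1)).card : ℕ) : ℝ) + 1 =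
      (Fintype.card G : ℝ) := by
    have h4 : (Finset.univ.filter (fun g : G => g ≠ 1)) = Finset.univ.erase 1 := by
      ext g
      simp
    rw [h4]
    have h5 := Finset.card_erase_add_one (Finset.mem_univ (1 : G))
    rw [Finset.card_univ] at h5
    exact_mod_cast h5
  rw [Finset.sum_add_distrib, Finset.sum_const, nsmul_eq_mul] at h1
  rw [phi, phi, div_add' _ _ _ hc.ne', div_le_div_iff_of_pos_right hc, ← h3]
  nlinarith [h1]

open scoped Classical in
theorem cond_phi_strict {G : Type u} [Group G] [Fintype G] (s : G → ℕ) {a u : ℝ} (h : a < u) :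
    phi s a < phi s u := by
  have hc : (0 : ℝ) < (Fintype.card G : ℝ) := by
    exact_mod_cast Fintype.card_pos
  rw [phi, phi, div_lt_div_iff_of_pos_right hc]
  exact add_lt_add_of_lt_of_le h (Finset.sum_le_sum fun g _ => min_le_min le_rfl h.le)

open scoped Classical in
theorem cond_generic {G : Type u} [Group G] [Fintype G] (s : G → ℕ) (R : ℕ → Set G)
    (hR : ∀ i g, g ∈ R i ↔ (g = 1 ∨ i ≤ s g)) (hn : Nontrivial G) :
    sSup {v : ℝ | ∃ σ : G, (∀ u : ℝ, 0 ≤ u →
      (∫ x in (0 : ℝ)..u, (Nat.card (R ⌈x⌉₊) : ℝ) / (Nat.card (R 0) : ℝ)) ≤ v →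
        σ ∈ R ⌈u⌉₊) ∧ σ ≠ 1} = cond s := by
  have key : ∀ (σ : G), σ ≠ 1 → ∀ v : ℝ, (∀ u : ℝ, 0 ≤ u →
      (∫ x in (0 : ℝ)..u, (Nat.card (R ⌈x⌉₊) : ℝ) / (Nat.card (R 0) : ℝ)) ≤ v →
        σ ∈ R ⌈u⌉₊) ↔ v ≤ phi s (s σ : ℝ) := by
    intro σ hσ v
    constructor
    · intro h
      by_contra hv
      push Not at hv
      have h1 : (0 : ℝ) ≤ s σ := Nat.cast_nonneg _
      have h2 := cond_phi_lip s (a := (s σ : ℝ)) (u := (s σ : ℝ) + (v - phi s (s σ : ℝ)))
        (by linarith)
      have h3 : (0 : ℝ) ≤ (s σ : ℝ) + (v - phi s (s σ : ℝ)) := by linarith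
      have h4 := h _ h3 (by rw [cond_herb s R hR _ h3]; linarith)
      rw [hR, Nat.ceil_le] at h4
      rcases h4 with h4 | h4
      · exact hσ h4
      · linarith
    · intro h u hu hv
      rw [cond_herb s R hR u hu] at hv
      rw [hR, Nat.ceil_le]
      right
      by_contra h5
      push Not at h5
      have := cond_phi_strict s h5
      linarith
  have hne : (Finset.univ.filter (fun g : G => g ≠ 1)).Nonempty := by
    obtain ⟨g, hg⟩ := exists_ne (1 : G)
    exact ⟨g, by simp [hg]⟩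
  obtain ⟨g0, hg0, hmax⟩ := Finset.exists_mem_eq_sup _ hne s
  have hx0 : x0 s = s g0 := hmax
  have hle : ∀ g : G, g ≠ 1 → s g ≤ x0 s := by
    intro g hg
    exact Finset.le_sup (f := s) (by simp [hg])
  have hg1 : g0 ≠ 1 := by
    simpa using hg0
  have hmono : ∀ a b : ℝ, a ≤ b → phi s a ≤ phi s b := by
    intro a b hab
    rcases hab.lt_or_eq with h | h
    · exact (cond_phi_strict s h).le
    · rw [h]
  have hset : {v : ℝ | ∃ σ : G, (∀ u : ℝ, 0 ≤ u →
      (∫ x in (0 : ℝ)..u, (Nat.card (R ⌈x⌉₊) : ℝ) / (Nat.card (R 0) : ℝ)) ≤ v →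
        σ ∈ R ⌈u⌉₊) ∧ σ ≠ 1} = Set.Iic (phi s (x0 s : ℝ)) := by
    ext v
    simp only [Set.mem_ofPred_eq, Set.mem_Iic]
    constructor
    · rintro ⟨σ, h1, h2⟩
      rw [key σ h2] at h1
      exact h1.trans (hmono _ _ (by exact_mod_cast hle σ h2))
    · intro h
      refine ⟨g0, ?_, hg1⟩
      rw [key g0 hg1, ← hx0]
      exact h
  rw [hset, csSup_Iic, phi, cond, S1]
  congr 1
  rw [add_comm]
  push_cast
  congr 1
  refine Finset.sum_congr rfl fun g hg => ?_
  rw [min_eq_left]
  have : g ≠ 1 := by simpa using hg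
  exact_mod_cast hle g this

theorem st_COND (hS1 : ST_S1.{u}) : ST_COND.{u} := by
  intro p _ k _ _ _ L _ _ _ _ v hv hram hp hn
  have hex : ∀ σ : L ≃ₐ[LaurentSeries k] L, σ ≠ 1 →
      1 ≤ s v σ ∧ (∀ x, v x + ((s v σ : ℤ) : WithTop ℤ) ≤ v (σ x - x)) ∧
      (∀ (x : L) (m : ℤ), v x = (m : WithTop ℤ) → ¬ (p : ℤ) ∣ m →
        v (σ x - x) = ((m + s v σ : ℤ) : WithTop ℤ)) := by
    intro σ hσ
    refine hS1 p k L ((algebraMap (LaurentSeries k) L).comp (κ0 k)) v hram.tv (σ : L →+* L)
      ?_ ?_ ?_ ?_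
    · intro c
      simp
    · intro x
      exact hram.inv σ x
    · obtain ⟨N, hN⟩ := hp σ
      refine ⟨N, fun x => ?_⟩
      have h1 : ∀ (n : ℕ) (y : L), (⇑(σ : L →+* L))^[n] y = (σ ^ n) y := by
        intro n
        induction n with
        | zero => intro y; simp
        | succ n ih =>
          intro y
          rw [Function.iterate_succ_apply, ih, pow_succ]
          rfl
      rw [h1, hN]
      rfl
    · by_contra h
      push Not at h
      exact hσ (AlgEquiv.ext h)
  have hR : ∀ (i : ℕ) (σ : L ≃ₐ[LaurentSeries k] L), σ ∈ lowerRam k L i ↔ (σ = 1 ∨ i ≤ s v σ) := by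
    intro i σ
    constructor
    · intro h
      by_cases hσ : σ = 1
      · exact Or.inl hσ
      · right
        obtain ⟨-, -, h3⟩ := hex σ hσ
        obtain ⟨π, hπ⟩ := hram.tv.unif
        have hp1 : ¬ (p : ℤ) ∣ 1 := by
          intro hd
          have := Int.natAbs_dvd_natAbs.mpr hd
          simp only [Int.natAbs_natCast, Int.natAbs_one, Nat.dvd_one] at this
          exact (Fact.out : p.Prime).one_lt.ne' this
        have h4 := h3 π 1 (by rw [hπ]; rfl) hp1
        have h5 := h π (by rw [← hv, hπ]; exact zero_le_one)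
        rw [← hv, h4] at h5
        have h6 := WithTop.coe_le_coe.mp h5
        omega
    · intro h x hx
      rw [← hv] at hx ⊢
      rcases h with rfl | h
      · simp
      · by_cases hσ : σ = 1
        · rw [hσ]
          simp
        · obtain ⟨-, h2, -⟩ := hex σ hσ
          obtain ⟨c, hc⟩ := hram.tv.const x hx
          have h3 := h2 (x - ((algebraMap (LaurentSeries k) L).comp (κ0 k)) c)
          have h4 : σ (x - ((algebraMap (LaurentSeries k) L).comp (κ0 k)) c) -
              (x - ((algebraMap (LaurentSeries k) L).comp (κ0 k)) c) = σ x - x := by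
            rw [map_sub]
            have : σ (((algebraMap (LaurentSeries k) L).comp (κ0 k)) c) =
                ((algebraMap (LaurentSeries k) L).comp (κ0 k)) c := by simp
            rw [this]
            ring
          rw [h4] at h3
          refine le_trans ?_ h3
          have h5 : (((i : ℤ) + 1 : ℤ) : WithTop ℤ) ≤ ((1 : ℤ) : WithTop ℤ) +
              ((s v σ : ℤ) : WithTop ℤ) := by
            rw [← WithTop.coe_add]
            exact WithTop.coe_le_coe.mpr (by omega)
          refine h5.trans ?_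
          gcongr
          exact hc
  have hgen := cond_generic (fun σ : L ≃ₐ[LaurentSeries k] L => s v σ) (lowerRam k L) hR hn
  rw [← hgen]
  rfl

end Pool.Agent.Helper21.DN
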